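import Pool.Agent.N641.VB.Stm6
import Pool.Agent.N619.VB.EX3

set_option autoImplicit false

/-!
# Project VB (helper641), part EXB (helper249): transfer of general bi-interpretations
-/

namespace Pool.Agent.N249.VB

open FirstOrder FirstOrder.Language Pool.Agent.N641.VB Pool.Agent.N619.VB

variable {L : FirstOrder.Language.{0, 0}} {M : Type} (σ : Sc6 L M)

/-- representatives of elements of the structure -/
def De (le : ℕ → ℕ → Prop) (mu : ℕ → M) (q : Fin σ.n' → ℕ) (x : Fin σ.r → ℕ) : Prop :=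
  Rz le mu σ.δ (Sum.elim q x)

/-- a pair -/
def pr {r : ℕ} (x y : Fin r → ℕ) : Fin 2 × Fin r → ℕ := fun a => if a.1 = 0 then x a.2 else y a.2

/-- the equivalence relation -/
def Ep (le : ℕ → ℕ → Prop) (mu : ℕ → M) (q : Fin σ.n' → ℕ) (x y : Fin σ.r → ℕ) : Prop :=
  Rz le mu σ.ε (Sum.elim q (pr x y))

/-- the composition -/
def Ka (le : ℕ → ℕ → Prop) (mu : ℕ → M) (q : Fin σ.n' → ℕ) (v : Fin σ.t × Fin σ.r → ℕ)
    (b : Fin 1 → ℕ) : Prop := Rz le mu σ.κ (Sum.elim q (Sum.elim v b))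

/-- a formula with the parameters of the structure, in the algebra -/
def Ht {α : Type} (χ : (LM M).Formula (Fin σ.n' ⊕ (Fin σ.n ⊕ α) × Fin σ.r))
    (le : ℕ → ℕ → Prop) (mu : ℕ → M) (q : Fin σ.n' → ℕ) (w : α × Fin σ.r → ℕ) : Prop :=
  Rz le mu χ (Sum.elim q fun x =>
    Sum.elim (fun j => q (σ.π j x.2)) (fun a => w (a, x.2)) x.1)

section dn

variable {k : Type}

theorem dn_de (gq : Fin σ.n' → k) (gx : Fin σ.r → k) (hq : (k → ℕ) → Fin σ.n' → ℕ)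
    (hx : (k → ℕ) → Fin σ.r → ℕ) (e1 : ∀ v i, hq v i = v (gq i)) (e2 : ∀ v i, hx v i = v (gx i)) :
    Dn (fun le mu v => De σ le mu (hq v) (hx v)) :=
  Dn.atom σ.δ (Sum.elim gq gx) (fun v => Sum.elim (hq v) (hx v)) (by
    rintro v (j | c)
    · exact e1 v j
    · exact e2 v c)

theorem dn_ep (gq : Fin σ.n' → k) (gx gy : Fin σ.r → k) (hq : (k → ℕ) → Fin σ.n' → ℕ)
    (hx hy : (k → ℕ) → Fin σ.r → ℕ) (e1 : ∀ v i, hq v i = v (gq i))
    (e2 : ∀ v i, hx v i = v (gx i)) (e3 : ∀ v i, hy v i = v (gy i)) :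
    Dn (fun le mu v => Ep σ le mu (hq v) (hx v) (hy v)) :=
  Dn.atom σ.ε (Sum.elim gq fun a => if a.1 = 0 then gx a.2 else gy a.2)
    (fun v => Sum.elim (hq v) (pr (hx v) (hy v))) (by
    rintro v (j | ⟨a, c⟩)
    · exact e1 v j
    · show (if a = 0 then hx v c else hy v c) = v (if a = 0 then gx c else gy c)
      by_cases h : a = 0
      · rw [if_pos h, if_pos h, e2]
      · rw [if_neg h, if_neg h, e3])

theorem dn_ka (gq : Fin σ.n' → k) (gv : Fin σ.t × Fin σ.r → k) (gb : Fin 1 → k)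
    (hq : (k → ℕ) → Fin σ.n' → ℕ) (hv : (k → ℕ) → Fin σ.t × Fin σ.r → ℕ)
    (hb : (k → ℕ) → Fin 1 → ℕ) (e1 : ∀ v i, hq v i = v (gq i))
    (e2 : ∀ v i, hv v i = v (gv i)) (e3 : ∀ v i, hb v i = v (gb i)) :
    Dn (fun le mu v => Ka σ le mu (hq v) (hv v) (hb v)) :=
  Dn.atom σ.κ (Sum.elim gq (Sum.elim gv gb))
    (fun v => Sum.elim (hq v) (Sum.elim (hv v) (hb v))) (by
    rintro v (j | a | c)
    · exact e1 v j
    · exact e2 v a
    · exact e3 v c)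

theorem dn_ht {α : Type} (χ : (LM M).Formula (Fin σ.n' ⊕ (Fin σ.n ⊕ α) × Fin σ.r))
    (gq : Fin σ.n' → k) (gw : α × Fin σ.r → k)
    (hq : (k → ℕ) → Fin σ.n' → ℕ) (hw : (k → ℕ) → α × Fin σ.r → ℕ)
    (e1 : ∀ v i, hq v i = v (gq i)) (e2 : ∀ v i, hw v i = v (gw i)) :
    Dn (fun le mu v => Ht σ χ le mu (hq v) (hw v)) :=
  Dn.atom χ (Sum.elim gq fun x => Sum.elim (fun j => gq (σ.π j x.2)) (fun a => gw (a, x.2)) x.1)
    (fun v => Sum.elim (hq v) fun x =>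
      Sum.elim (fun j => hq v (σ.π j x.2)) (fun a => hw v (a, x.2)) x.1) (by
    rintro v (j | ⟨j | a, c⟩)
    · exact e1 v j
    · exact e1 v (σ.π j c)
    · exact e2 v (a, c))

end dn

/-- (1) -/
def H1 (χ : (LM M).Formula (Fin σ.n' ⊕ (Fin σ.n ⊕ Fin σ.t) × Fin σ.r)) (le : ℕ → ℕ → Prop)
    (mu : ℕ → M) (q : Fin σ.n' → ℕ) : Prop :=
  ∀ v : Fin σ.t × Fin σ.r → ℕ, (∀ i, De σ le mu q fun j => v (i, j)) →
    (Ht σ χ le mu q v ↔ ∃ b : Fin 1 → ℕ, Ka σ le mu q v b)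

theorem dn1 (χ : (LM M).Formula (Fin σ.n' ⊕ (Fin σ.n ⊕ Fin σ.t) × Fin σ.r)) : Dn (H1 σ χ) := by
  unfold H1
  refine Dn.all (Dn.imp (Dn.fin fun i => ?_) (Dn.iff ?_ (Dn.ex ?_)))
  · exact dn_de σ (fun j => Sum.inl j) (fun c => Sum.inr (i, c)) _ _ (fun _ _ => rfl)
      (fun _ _ => rfl)
  · exact dn_ht σ χ (fun j => Sum.inl j) (fun c => Sum.inr c) _ _ (fun _ _ => rfl)
      (fun _ _ => rfl)
  · exact dn_ka σ (fun j => Sum.inl (Sum.inl j)) (fun c => Sum.inl (Sum.inr c))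
      (fun c => Sum.inr c) _ _ _ (fun _ _ => rfl) (fun _ _ => rfl) (fun _ _ => rfl)

/-- (2) -/
def H2 (le : ℕ → ℕ → Prop) (mu : ℕ → M) (q : Fin σ.n' → ℕ) : Prop :=
  ∀ v : Fin σ.t × Fin σ.r → ℕ, ∀ w : Fin σ.t × Fin σ.r → ℕ,
    (∀ i, De σ le mu q fun j => v (i, j)) → (∀ i, De σ le mu q fun j => w (i, j)) →
    (∀ i, Ep σ le mu q (fun j => v (i, j)) fun j => w (i, j)) →
    ∀ b : Fin 1 → ℕ, Ka σ le mu q v b → Ka σ le mu q w b

theorem dn2 : Dn (H2 σ) := by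
  unfold H2
  refine Dn.all (Dn.all (Dn.imp (Dn.fin fun i => ?_) (Dn.imp (Dn.fin fun i => ?_)
    (Dn.imp (Dn.fin fun i => ?_) (Dn.all (Dn.imp ?_ ?_))))))
  · exact dn_de σ (fun j => Sum.inl (Sum.inl j)) (fun c => Sum.inl (Sum.inr (i, c))) _ _
      (fun _ _ => rfl) (fun _ _ => rfl)
  · exact dn_de σ (fun j => Sum.inl (Sum.inl j)) (fun c => Sum.inr (i, c)) _ _
      (fun _ _ => rfl) (fun _ _ => rfl)
  · exact dn_ep σ (fun j => Sum.inl (Sum.inl j)) (fun c => Sum.inl (Sum.inr (i, c)))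
      (fun c => Sum.inr (i, c)) _ _ _ (fun _ _ => rfl) (fun _ _ => rfl) (fun _ _ => rfl)
  · exact dn_ka σ (fun j => Sum.inl (Sum.inl (Sum.inl j))) (fun c => Sum.inl (Sum.inl (Sum.inr c)))
      (fun c => Sum.inr c) _ _ _ (fun _ _ => rfl) (fun _ _ => rfl) (fun _ _ => rfl)
  · exact dn_ka σ (fun j => Sum.inl (Sum.inl (Sum.inl j))) (fun c => Sum.inl (Sum.inr c))
      (fun c => Sum.inr c) _ _ _ (fun _ _ => rfl) (fun _ _ => rfl) (fun _ _ => rfl)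

/-- (2), uniqueness -/
def H2u (le : ℕ → ℕ → Prop) (mu : ℕ → M) (q : Fin σ.n' → ℕ) : Prop :=
  ∀ v : Fin σ.t × Fin σ.r → ℕ, (∀ i, De σ le mu q fun j => v (i, j)) →
    ∀ b : Fin 1 → ℕ, ∀ c : Fin 1 → ℕ, Ka σ le mu q v b → Ka σ le mu q v c → b 0 = c 0

theorem dn2u : Dn (H2u σ) := by
  unfold H2u
  refine Dn.all (Dn.imp (Dn.fin fun i => ?_) (Dn.all (Dn.all (Dn.imp ?_ (Dn.imp ?_ ?_)))))
  · exact dn_de σ (fun j => Sum.inl j) (fun c => Sum.inr (i, c)) _ _ (fun _ _ => rfl)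
      (fun _ _ => rfl)
  · exact dn_ka σ (fun j => Sum.inl (Sum.inl (Sum.inl j))) (fun c => Sum.inl (Sum.inl (Sum.inr c)))
      (fun c => Sum.inl (Sum.inr c)) _ _ _ (fun _ _ => rfl) (fun _ _ => rfl) (fun _ _ => rfl)
  · exact dn_ka σ (fun j => Sum.inl (Sum.inl (Sum.inl j))) (fun c => Sum.inl (Sum.inl (Sum.inr c)))
      (fun c => Sum.inr c) _ _ _ (fun _ _ => rfl) (fun _ _ => rfl) (fun _ _ => rfl)
  · exact Dn.eq (Sum.inl (Sum.inr 0)) (Sum.inr 0) _ _ (fun v => rfl) (fun v => rfl)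

/-- (3) -/
def H3 (le : ℕ → ℕ → Prop) (mu : ℕ → M) (q : Fin σ.n' → ℕ) : Prop :=
  ∀ b : Fin 1 → ℕ, ∃ v : Fin σ.t × Fin σ.r → ℕ, (∀ i, De σ le mu q fun j => v (i, j)) ∧
    Ka σ le mu q v b

theorem dn3 : Dn (H3 σ) := by
  unfold H3
  refine Dn.all (Dn.ex (Dn.and (Dn.fin fun i => ?_) ?_))
  · exact dn_de σ (fun j => Sum.inl (Sum.inl j)) (fun c => Sum.inr (i, c)) _ _
      (fun _ _ => rfl) (fun _ _ => rfl)
  · exact dn_ka σ (fun j => Sum.inl (Sum.inl j)) (fun c => Sum.inr c)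
      (fun c => Sum.inl (Sum.inr c)) _ _ _ (fun _ _ => rfl) (fun _ _ => rfl) (fun _ _ => rfl)

/-- (4) -/
def H4 (χ : (LM M).Formula (Fin σ.n' ⊕ (Fin σ.n ⊕ Fin 2 × Fin σ.t) × Fin σ.r))
    (le : ℕ → ℕ → Prop) (mu : ℕ → M) (q : Fin σ.n' → ℕ) : Prop :=
  ∀ v : (Fin 2 × Fin σ.t) × Fin σ.r → ℕ, (∀ a, De σ le mu q fun j => v (a, j)) →
    ∀ b : Fin 1 → ℕ, ∀ c : Fin 1 → ℕ, Ka σ le mu q (fun x => v ((0, x.1), x.2)) b →
    Ka σ le mu q (fun x => v ((1, x.1), x.2)) c → (Ht σ χ le mu q v ↔ le (b 0) (c 0))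

theorem dn4 (χ : (LM M).Formula (Fin σ.n' ⊕ (Fin σ.n ⊕ Fin 2 × Fin σ.t) × Fin σ.r)) :
    Dn (H4 σ χ) := by
  unfold H4
  refine Dn.all (Dn.imp (Dn.fin fun a => ?_) (Dn.all (Dn.all (Dn.imp ?_ (Dn.imp ?_
    (Dn.iff ?_ ?_))))))
  · exact dn_de σ (fun j => Sum.inl j) (fun c => Sum.inr (a, c)) _ _ (fun _ _ => rfl)
      (fun _ _ => rfl)
  · exact dn_ka σ (fun j => Sum.inl (Sum.inl (Sum.inl j)))
      (fun x => Sum.inl (Sum.inl (Sum.inr ((0, x.1), x.2))))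
      (fun c => Sum.inl (Sum.inr c)) _ _ _ (fun _ _ => rfl) (fun _ _ => rfl) (fun _ _ => rfl)
  · exact dn_ka σ (fun j => Sum.inl (Sum.inl (Sum.inl j)))
      (fun x => Sum.inl (Sum.inl (Sum.inr ((1, x.1), x.2))))
      (fun c => Sum.inr c) _ _ _ (fun _ _ => rfl) (fun _ _ => rfl) (fun _ _ => rfl)
  · exact dn_ht σ χ (fun j => Sum.inl (Sum.inl (Sum.inl j)))
      (fun c => Sum.inl (Sum.inl (Sum.inr c))) _ _ (fun _ _ => rfl) (fun _ _ => rfl)
  · exact Dn.le (Sum.inl (Sum.inr 0)) (Sum.inr 0) _ _ (fun v => rfl) (fun v => rfl)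

/-- (5) -/
def H5 (χ : (LM M).Formula (Fin σ.n' ⊕ (Fin σ.n ⊕ Fin σ.t) × Fin σ.r)) (m : M)
    (le : ℕ → ℕ → Prop) (mu : ℕ → M) (q : Fin σ.n' → ℕ) : Prop :=
  ∀ v : Fin σ.t × Fin σ.r → ℕ, (∀ a, De σ le mu q fun j => v (a, j)) →
    ∀ b : Fin 1 → ℕ, Ka σ le mu q v b → (Ht σ χ le mu q v ↔ mu (b 0) = m)

theorem dn5 (χ : (LM M).Formula (Fin σ.n' ⊕ (Fin σ.n ⊕ Fin σ.t) × Fin σ.r)) (m : M) :
    Dn (H5 σ χ m) := by
  unfold H5
  refine Dn.all (Dn.imp (Dn.fin fun a => ?_) (Dn.all (Dn.imp ?_ (Dn.iff ?_ ?_))))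
  · exact dn_de σ (fun j => Sum.inl j) (fun c => Sum.inr (a, c)) _ _ (fun _ _ => rfl)
      (fun _ _ => rfl)
  · exact dn_ka σ (fun j => Sum.inl (Sum.inl j)) (fun x => Sum.inl (Sum.inr x))
      (fun c => Sum.inr c) _ _ _ (fun _ _ => rfl) (fun _ _ => rfl) (fun _ _ => rfl)
  · exact dn_ht σ χ (fun j => Sum.inl (Sum.inl j)) (fun c => Sum.inl (Sum.inr c)) _ _
      (fun _ _ => rfl) (fun _ _ => rfl)
  · exact Dn.val m (Sum.inr 0) _ (fun v => rfl)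

theorem dn6 (j : Fin σ.n) : Dn (fun le mu q => De σ le mu q fun i => q (σ.π j i)) :=
  dn_de σ (fun j => j) (fun c => σ.π j c) _ _ (fun _ _ => rfl) (fun _ _ => rfl)

/-- transfer of definable predicates -/
theorem tr {n : ℕ} {bo bo' : BooleanAlgebra ℕ} {mu mu' : ℕ → M} {q q' : Fin n → ℕ}
    (h : SameF bo bo' mu mu' q q') {P : (ℕ → ℕ → Prop) → (ℕ → M) → (Fin n → ℕ) → Prop}
    (hP : Dn P) : P bo.le mu q → P bo'.le mu' q' := by
  obtain ⟨χ, hχ⟩ := hP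
  intro h1
  rw [← hχ] at h1 ⊢
  exact (h χ).1 h1

theorem b_eq (b : Fin 1 → ℕ) : b = fun _ => b 0 := by
  funext i
  rw [Subsingleton.elim i 0]

variable {σ}

/-- the meaning of `Ep` -/
theorem ep_iff {bo : BooleanAlgebra ℕ} {mu : ℕ → M} {q : Fin σ.n' → ℕ} {S : L.Structure ℕ}
    {g : (Fin σ.r → ℕ) → ℕ} (hI : @In6 L M σ ℕ bo mu q ℕ S g) {x y : Fin σ.r → ℕ}
    (hx : De σ bo.le mu q x) (hy : De σ bo.le mu q y) :
    Ep σ bo.le mu q x y ↔ g x = g y := by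
  have h := hI.eq (pr x y) (fun i => by
    rcases Fin.exists_fin_two.1 ⟨i, rfl⟩ with h | h
    · subst h; exact hx
    · subst h; exact hy)
  exact h

/-- the meaning of `Ht` -/
theorem ht_iff {α : Type} {χ : L.Formula (Fin σ.n ⊕ α)}
    {χ' : (LM M).Formula (Fin σ.n' ⊕ (Fin σ.n ⊕ α) × Fin σ.r)}
    (hχ : ∀ (A : Type) [BooleanAlgebra A] (mu : A → M) (q : Fin σ.n' → A) (U : Type)
    (S : L.Structure U) (g : (Fin σ.r → A) → U), In6 σ mu q S g →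
    ∀ v : (Fin σ.n ⊕ α) × Fin σ.r → A,
    (∀ i, @Formula.Realize (LM M) A (str (· ≤ ·) mu) _ σ.δ (Sum.elim q fun j => v (i, j))) →
    (@Formula.Realize (LM M) A (str (· ≤ ·) mu) _ χ' (Sum.elim q v) ↔
      @Formula.Realize L U S _ χ (fun i => g fun j => v (i, j))))
    {bo : BooleanAlgebra ℕ} {mu : ℕ → M} {q : Fin σ.n' → ℕ} {S : L.Structure ℕ}
    {g : (Fin σ.r → ℕ) → ℕ} (hI : @In6 L M σ ℕ bo mu q ℕ S g) {p : Fin σ.n → ℕ}
    (hp : ∀ j, De σ bo.le mu q (fun i => q (σ.π j i)) ∧ g (fun i => q (σ.π j i)) = p j)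
    (w : α × Fin σ.r → ℕ) (hw : ∀ a, De σ bo.le mu q fun j => w (a, j)) :
    Ht σ χ' bo.le mu q w ↔
      @Formula.Realize L ℕ S _ χ (Sum.elim p fun a => g fun j => w (a, j)) := by
  have h := @hχ ℕ bo mu q ℕ S g hI (fun x : (Fin σ.n ⊕ α) × Fin σ.r =>
    Sum.elim (fun j => q (σ.π j x.2)) (fun a => w (a, x.2)) x.1) (by
      rintro (j | a)
      · exact (hp j).1
      · exact hw a)
  have e : (fun i => g fun j => (Sum.elim (fun j' => q (σ.π j' j)) (fun a => w (a, j)) i : ℕ)) =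
      (Sum.elim p fun a => g fun j => w (a, j) : Fin σ.n ⊕ α → ℕ) := by
    funext i
    rcases i with i | a
    · exact (hp i).2
    · rfl
  rw [← e]
  exact h

theorem EXB (TM6 : S_TM6) : S_EXB := by
  intro L M σ S S' bo bo' mu mu' q q' p g g' f hB hS hI'
  obtain ⟨dom', hdom'⟩ := TM6 L M σ (Fin σ.n ⊕ Fin σ.t) σ.dom
  obtain ⟨φ', hφ'⟩ := TM6 L M σ (Fin σ.n ⊕ Fin 2 × Fin σ.t) σ.φ
  choose ψ' hψ' using fun c : M => TM6 L M σ (Fin σ.n ⊕ Fin σ.t) (σ.ψ c)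
  have hI := hB.inn
  have hp : ∀ j, De σ bo.le mu q (fun i => q (σ.π j i)) ∧ g (fun i => q (σ.π j i)) = p j :=
    hB.par
  have hcomp : ∀ (v : Fin σ.t × Fin σ.r → ℕ) (b : Fin 1 → ℕ),
      (∀ i, De σ bo.le mu q fun j => v (i, j)) → (Ka σ bo.le mu q v b ↔
        @Formula.Realize L ℕ S _ σ.dom (Sum.elim p fun i => g fun j => v (i, j)) ∧
          f (fun i => g fun j => v (i, j)) = b 0) := by
    intro v b hv
    rw [b_eq b]
    exact hB.comp v (b 0) hv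
  -- the properties in the second algebra
  have h1 : H1 σ dom' bo'.le mu' q' := by
    refine tr hS (dn1 σ dom') ?_
    intro v hv
    rw [ht_iff hdom' hI hp v hv]
    constructor
    · intro h
      exact ⟨fun _ => f (fun i => g fun j => v (i, j)), (hcomp v _ hv).2 ⟨h, rfl⟩⟩
    · rintro ⟨b, hb⟩
      exact ((hcomp v b hv).1 hb).1
  have h2 : H2 σ bo'.le mu' q' := by
    refine tr hS (dn2 σ) ?_
    intro v w hv hw he b hb
    have e : (fun i => g fun j => v (i, j)) = fun i => g fun j => w (i, j) :=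
      funext fun i => (ep_iff hI (hv i) (hw i)).1 (he i)
    rw [hcomp v b hv, e] at hb
    exact (hcomp w b hw).2 hb
  have h2u : H2u σ bo'.le mu' q' := by
    refine tr hS (dn2u σ) ?_
    intro v hv b c hb hc
    exact ((hcomp v b hv).1 hb).2.symm.trans ((hcomp v c hv).1 hc).2
  have h3 : H3 σ bo'.le mu' q' := by
    refine tr hS (dn3 σ) ?_
    intro b
    obtain ⟨x, hx, hfx⟩ := hB.dec.surj (b 0)
    choose y hy1 hy2 using fun i => @In6.onto L M σ ℕ bo mu q ℕ S g hI (x i)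
    have e : (fun i => g fun j => y i j) = x := funext fun i => hy2 i
    refine ⟨fun a => y a.1 a.2, fun i => hy1 i, ?_⟩
    refine (hcomp (fun a => y a.1 a.2) b fun i => hy1 i).2 ?_
    show @Formula.Realize L ℕ S _ σ.dom (Sum.elim p fun i => g fun j => y i j) ∧
      f (fun i => g fun j => y i j) = b 0
    rw [e]
    exact ⟨hx, hfx⟩
  have h4 : H4 σ φ' bo'.le mu' q' := by
    refine tr hS (dn4 σ φ') ?_
    intro v hv b c hb hc
    have hb' := (hcomp _ b fun i => hv (0, i)).1 hb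
    have hc' := (hcomp _ c fun i => hv (1, i)).1 hc
    rw [ht_iff hφ' hI hp v hv, ← hb'.2, ← hc'.2]
    refine hB.dec.le (fun a => g fun j => v (a, j)) fun i => ?_
    rcases Fin.exists_fin_two.1 ⟨i, rfl⟩ with h | h
    · subst h; exact hb'.1
    · subst h; exact hc'.1
  have h5 : ∀ c, H5 σ (ψ' c) c bo'.le mu' q' := by
    intro c
    refine tr hS (dn5 σ (ψ' c) c) ?_
    intro v hv b hb
    have hb' := (hcomp v b hv).1 hb
    rw [ht_iff (hψ' c) hI hp v hv, ← hb'.2]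
    exact hB.dec.val c (fun i => g fun j => v (i, j)) hb'.1
  have h6 : ∀ j, De σ bo'.le mu' q' fun i => q' (σ.π j i) := by
    intro j
    exact tr hS (dn6 σ j) (hp j).1
  -- the new maps
  choose rep hr1 hr2 using hI'.onto
  set p' : Fin σ.n → ℕ := fun j => g' fun i => q' (σ.π j i) with hp'
  have hpp : ∀ j, De σ bo'.le mu' q' (fun i => q' (σ.π j i)) ∧
      g' (fun i => q' (σ.π j i)) = p' j := fun j => ⟨h6 j, rfl⟩
  have hV : ∀ (x : Fin σ.t → ℕ) (i : Fin σ.t), De σ bo'.le mu' q' fun j => rep (x i) j :=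
    fun x i => hr1 (x i)
  have hf : ∀ x : Fin σ.t → ℕ, ∃ b : ℕ, ∀ c : Fin 1 → ℕ,
      Ka σ bo'.le mu' q' (fun a => rep (x a.1) a.2) c → b = c 0 := by
    intro x
    by_cases h : ∃ c : Fin 1 → ℕ, Ka σ bo'.le mu' q' (fun a => rep (x a.1) a.2) c
    · obtain ⟨c, hc⟩ := h
      exact ⟨c 0, fun c' hc' => h2u (fun a => rep (x a.1) a.2) (hV x) c c' hc hc'⟩
    · exact ⟨0, fun c hc => absurd ⟨c, hc⟩ h⟩
  choose f' hf' using hf
  have hdm : ∀ x : Fin σ.t → ℕ, @Formula.Realize L ℕ S' _ σ.dom (Sum.elim p' x) ↔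
      ∃ b : Fin 1 → ℕ, Ka σ bo'.le mu' q' (fun a => rep (x a.1) a.2) b := by
    intro x
    have h := ht_iff hdom' hI' hpp (fun a => rep (x a.1) a.2) (hV x)
    have e : (fun i => g' fun j => rep (x i) j) = x := funext fun i => hr2 (x i)
    rw [← h1 (fun a => rep (x a.1) a.2) (hV x), h]
    show _ ↔ @Formula.Realize L ℕ S' _ σ.dom (Sum.elim p' fun i => g' fun j => rep (x i) j)
    rw [e]
  have hmv : ∀ (v : Fin σ.t × Fin σ.r → ℕ), (∀ i, De σ bo'.le mu' q' fun j => v (i, j)) →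
      ∀ b : Fin 1 → ℕ, Ka σ bo'.le mu' q' v b ↔
        Ka σ bo'.le mu' q' (fun a => rep (g' fun j => v (a.1, j)) a.2) b := by
    intro v hv b
    have e : ∀ i, g' (fun j => v (i, j)) = g' (fun j => rep (g' fun j => v (i, j)) j) :=
      fun i => (hr2 _).symm
    constructor
    · exact h2 v (fun a => rep (g' fun j => v (a.1, j)) a.2) hv
        (hV fun i => g' fun j => v (i, j))
        (fun i => (ep_iff hI' (hv i) (hV (fun i => g' fun j => v (i, j)) i)).2 (e i)) b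
    · exact h2 (fun a => rep (g' fun j => v (a.1, j)) a.2) v
        (hV fun i => g' fun j => v (i, j)) hv
        (fun i => (ep_iff hI' (hV (fun i => g' fun j => v (i, j)) i) (hv i)).2 (e i).symm) b
  have hcomp' : ∀ (v : Fin σ.t × Fin σ.r → ℕ) (b : Fin 1 → ℕ),
      (∀ i, De σ bo'.le mu' q' fun j => v (i, j)) → (Ka σ bo'.le mu' q' v b ↔
        @Formula.Realize L ℕ S' _ σ.dom (Sum.elim p' fun i => g' fun j => v (i, j)) ∧
          f' (fun i => g' fun j => v (i, j)) = b 0) := by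
    intro v b hv
    rw [hmv v hv b, hdm]
    constructor
    · intro h
      exact ⟨⟨b, h⟩, hf' (fun i => g' fun j => v (i, j)) b h⟩
    · rintro ⟨⟨c, hc⟩, hb⟩
      have h := hf' (fun i => g' fun j => v (i, j)) c hc
      have e : c = b := by
        rw [b_eq c, b_eq b, ← h, hb]
      rw [← e]
      exact hc
  have hV' : ∀ x : Fin σ.t → ℕ, @Formula.Realize L ℕ S' _ σ.dom (Sum.elim p' x) →
      Ka σ bo'.le mu' q' (fun a => rep (x a.1) a.2) (fun _ => f' x) := by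
    intro x hx
    have e : (fun i => g' fun j => rep (x i) j) = x := funext fun i => hr2 (x i)
    refine (hcomp' (fun a => rep (x a.1) a.2) (fun _ => f' x) (hV x)).2 ?_
    show @Formula.Realize L ℕ S' _ σ.dom (Sum.elim p' fun i => g' fun j => rep (x i) j) ∧
      f' (fun i => g' fun j => rep (x i) j) = f' x
    rw [e]
    exact ⟨hx, rfl⟩
  refine ⟨p', f', ⟨hI', ⟨?_, ?_, ?_⟩, ?_, hpp⟩⟩
  · intro b
    obtain ⟨v, hv, hb⟩ := h3 fun _ => b
    exact ⟨fun i => g' fun j => v (i, j), (hcomp' v _ hv).1 hb⟩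
  · intro v hv
    have hW : ∀ a : Fin 2 × Fin σ.t, De σ bo'.le mu' q' fun j => rep (v a) j := fun a => hr1 (v a)
    have h := h4 (fun a => rep (v a.1) a.2) hW (fun _ => f' fun j => v (0, j))
      (fun _ => f' fun j => v (1, j)) (hV' _ (hv 0)) (hV' _ (hv 1))
    have h' := ht_iff hφ' hI' hpp (fun a => rep (v a.1) a.2) hW
    have e : (fun a => g' fun j => rep (v a) j) = v := funext fun a => hr2 (v a)
    rw [← h, h']
    show _ ↔ @Formula.Realize L ℕ S' _ σ.φ (Sum.elim p' fun a => g' fun j => rep (v a) j)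
    rw [e]
  · intro c x hx
    have h := h5 c (fun a => rep (x a.1) a.2) (hV x) (fun _ => f' x) (hV' x hx)
    have h' := ht_iff (hψ' c) hI' hpp (fun a => rep (x a.1) a.2) (hV x)
    have e : (fun i => g' fun j => rep (x i) j) = x := funext fun i => hr2 (x i)
    rw [← h, h']
    show _ ↔ @Formula.Realize L ℕ S' _ (σ.ψ c) (Sum.elim p' fun i => g' fun j => rep (x i) j)
    rw [e]
  · intro v b hv
    exact hcomp' v (fun _ => b) hv

end Pool.Agent.N249.VB
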